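import Mathlib

namespace Pool.Agent.Results.MP_c44e76_an.Inverse

open Set Filter Topology Uniformity

variable {X : Type*} [UniformSpace X]

/-- `y` is a `G`-trajectory staying `U`-close to `x`. -/
def Shadows (G U : Set (X × X)) (x : ℕ → X) : Prop :=
  ∃ y : ℕ → X, (∀ n, (y n, y (n + 1)) ∈ G) ∧ ∀ n, (x n, y n) ∈ U

/-- The `(2,2)`-shadowing property. -/
def Shadow22 (G : Set (X × X)) : Prop :=
  ∀ U ∈ 𝓤 X, ∃ V ∈ 𝓤 X, ∀ x : ℕ → X,
    (∀ n, ∃ y, (x n, y) ∈ G ∧ (x (n + 1), y) ∈ V) → Shadows G U x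

/-- The `(1,2)`-shadowing property. -/
def Shadow12 (G : Set (X × X)) : Prop :=
  ∀ U ∈ 𝓤 X, ∃ V ∈ 𝓤 X, ∀ x : ℕ → X, (∀ n, ∃ y, (x n, y) ∈ G) →
    (∀ n y, (x n, y) ∈ G → (x (n + 1), y) ∈ V) → Shadows G U x

theorem result (X : Type*) [UniformSpace X] [CompactSpace X] [T2Space X] (G : Set (X × X))
    (hG : IsClosed G) (hd : diagonal X ⊆ G) (h : Shadow22 G) :
    Shadow22 {p : X × X | (p.2, p.1) ∈ G} ∧ Shadow12 {p : X × X | (p.2, p.1) ∈ G} := by
  have main : Shadow22 {p : X × X | (p.2, p.1) ∈ G} := by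
    intro U hU
    obtain ⟨C, ⟨hC, hCc⟩, hCU⟩ := uniformity_hasBasis_closed.mem_iff.1 hU
    obtain ⟨W, hW, hWC⟩ := comp_mem_uniformity_sets hC
    obtain ⟨V, hV, hsh⟩ := h W hW
    refine ⟨W ∩ {p | (p.2, p.1) ∈ V}, inter_mem hW (symm_le_uniformity hV), fun x hx => ?_⟩
    choose y hy hyV using hx
    let K : ℕ → Set (ℕ → X) := fun N =>
      {u | ∀ n ≤ N, (u (n + 1), u n) ∈ G ∧ (x n, u n) ∈ C}
    have hK : ∀ N, IsClosed (K N) := fun N => by
      simp only [K, ofPred_forall]
      exact isClosed_iInter fun n => isClosed_iInter fun _ =>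
        (hG.preimage (by fun_prop)).inter (hCc.preimage (by fun_prop))
    have hne : ∀ N, (K N).Nonempty := by
      intro N
      obtain ⟨w, hw, hwW⟩ := hsh (fun k => if k ≤ N then y (N - k) else x 0) (by
        intro k
        by_cases h1 : k + 1 ≤ N
        · refine ⟨x (N - k), by simpa [show k ≤ N by omega] using hy _, ?_⟩
          have := (hyV (N - (k + 1))).2
          rw [show N - (k + 1) + 1 = N - k by omega] at this
          simpa [h1] using this
        · refine ⟨x 0, ?_, by simpa [h1] using refl_mem_uniformity hV⟩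
          split_ifs with h2
          · rw [show N - k = 0 by omega]; exact hy 0
          · exact hd rfl)
      refine ⟨fun n => w (N + 1 - n), fun n hn => ⟨?_, hWC ?_⟩⟩
      · have := hw (N - n)
        rw [show N - n + 1 = N + 1 - n by omega] at this
        simpa using this
      · rcases n with _ | n
        · exact ⟨x 0, refl_mem_uniformity hW, by simpa using hwW (N + 1)⟩
        · refine ⟨y n, (hyV n).1, ?_⟩
          have := hwW (N - n)
          simp only [Nat.sub_le, if_true, show N - (N - n) = n by omega] at this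
          simpa using this
    obtain ⟨u, hu⟩ := IsCompact.nonempty_iInter_of_sequence_nonempty_isCompact_isClosed K
      (fun N u hu n hn => hu n (by omega)) hne (hK 0).isCompact hK
    rw [mem_iInter] at hu
    exact ⟨u, fun n => (hu n n le_rfl).1, fun n => hCU (hu n n le_rfl).2⟩
  refine ⟨main, fun U hU => ?_⟩
  obtain ⟨V, hV, h'⟩ := main U hU
  refine ⟨V, hV, fun x h1 h2 => h' x fun n => ?_⟩
  obtain ⟨y, hy⟩ := h1 n
  exact ⟨y, hy, h2 n y hy⟩

end Pool.Agent.Results.MP_c44e76_an.Inverse
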